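import Mathlib
import Pool.Agent.Helper186.Cot
import Pool.Agent.Helper186.DForms

/-!
# Energy levels of convex superlinear Hamiltonians: contact type, `e₀`, and the Mañé critical value
of the universal cover

All manifolds are smooth manifolds without boundary modelled on a finite dimensional normed space
`F`. `TStar F M` is the cotangent bundle `T*M` (Mathlib's bundle of continuous linear forms on
the tangent spaces, a smooth manifold with model `ITStar F`), `liouville` is its canonical one-form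
`p dx`, `extDer` (in `Pool.Agent.Helper186.Forms`) is the exterior derivative of a one-form, and
`SmoothForm` (same file) says that a one-form is smooth, as a function on the tangent bundle.
-/

open scoped Topology ContDiff Manifold
open Set Bundle Pool.Agent.Helper186

noncomputable section

namespace Pool.Agent.U880.CT

section CotangentBundle

variable (F : Type*) [NormedAddCommGroup F] [NormedSpace ℝ F] [FiniteDimensional ℝ F]
  (M : Type*) [TopologicalSpace M] [ChartedSpace F M] [IsManifold 𝓘(ℝ, F) ∞ M]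

/-- The cotangent bundle of the manifold `M` modelled on `F`: the pairs `⟨x, p⟩` of a point `x` and
a linear form `p` on the tangent space at `x`. -/
def TStar : Type _ :=
  TotalSpace (F →L[ℝ] ℝ) (fun x : M => TangentSpace 𝓘(ℝ, F) x →L[ℝ] ℝ)

/-- The model of the cotangent bundle. -/
def ITStar : ModelWithCorners ℝ (F × (F →L[ℝ] ℝ)) (ModelProd F (F →L[ℝ] ℝ)) :=
  𝓘(ℝ, F).prod 𝓘(ℝ, F →L[ℝ] ℝ)

instance topTStar : TopologicalSpace (TStar F M) :=
  inferInstanceAs (TopologicalSpace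
    (TotalSpace (F →L[ℝ] ℝ) (fun x : M => TangentSpace 𝓘(ℝ, F) x →L[ℝ] ℝ)))

instance chartedTStar : ChartedSpace (ModelProd F (F →L[ℝ] ℝ)) (TStar F M) :=
  inferInstanceAs (ChartedSpace (ModelProd F (F →L[ℝ] ℝ))
    (TotalSpace (F →L[ℝ] ℝ) (fun x : M => TangentSpace 𝓘(ℝ, F) x →L[ℝ] ℝ)))

instance manifoldTStar : IsManifold (ITStar F) ∞ (TStar F M) :=
  inferInstanceAs (IsManifold (𝓘(ℝ, F).prod 𝓘(ℝ, F →L[ℝ] ℝ)) ∞
    (TotalSpace (F →L[ℝ] ℝ) (fun x : M => TangentSpace 𝓘(ℝ, F) x →L[ℝ] ℝ)))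

instance boundarylessTStar : (ITStar F).Boundaryless :=
  inferInstanceAs ((𝓘(ℝ, F).prod 𝓘(ℝ, F →L[ℝ] ℝ)).Boundaryless)

end CotangentBundle

variable {F : Type*} [NormedAddCommGroup F] [NormedSpace ℝ F] [FiniteDimensional ℝ F]
  {M : Type*} [TopologicalSpace M] [ChartedSpace F M] [IsManifold 𝓘(ℝ, F) ∞ M]
  {M' : Type*} [TopologicalSpace M'] [ChartedSpace F M'] [IsManifold 𝓘(ℝ, F) ∞ M']

/-- The covector `p` at the point `x`. -/
def covec (x : M) (p : TangentSpace 𝓘(ℝ, F) x →L[ℝ] ℝ) : TStar F M := ⟨x, p⟩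

/-- The projection `T*M → M`. -/
def foot (ξ : TStar F M) : M := TotalSpace.proj ξ

/-- The linear form of a point of `T*M`. -/
def lform (ξ : TStar F M) : TangentSpace 𝓘(ℝ, F) (foot ξ) →L[ℝ] ℝ := TotalSpace.snd ξ

/-- The canonical one-form `p dx` of `T*M`: the form at `ξ = (x, p)` is `p ∘ d(foot)`. -/
def liouville (ξ : TStar F M) : TangentSpace (ITStar F) ξ →L[ℝ] ℝ :=
  (lform ξ).comp (mfderiv (ITStar F) 𝓘(ℝ, F) (foot : TStar F M → M) ξ)

/-- The canonical symplectic form `ω = d(p dx)` of `T*M` at `ξ`. -/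
def omega (ξ : TStar F M) (u v : TangentSpace (ITStar F) ξ) : ℝ :=
  extDer (ITStar F) liouville ξ u v

/-- The differential of a function on `T*M`. -/
def diff (H : TStar F M → ℝ) (ξ : TStar F M) : TangentSpace (ITStar F) ξ →L[ℝ] ℝ :=
  mfderiv (ITStar F) 𝓘(ℝ, ℝ) H ξ

/-- `C²` Hamiltonians on `T*M` which are convex (the second derivative of `H` along every fibre
direction `w ≠ 0` is positive) and superlinear (`H(x,p) / |p| → ∞` as `|p| → ∞`, uniformly in `x`,
where `|p|² = g_x(p,p)` for some smooth positive definite metric `g` on the cotangent spaces). -/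
structure IsConvexSuperlinear (H : TStar F M → ℝ) : Prop where
  contMDiff : ContMDiff (ITStar F) 𝓘(ℝ, ℝ) 2 H
  convex : ∀ (x : M) (p w : TangentSpace 𝓘(ℝ, F) x →L[ℝ] ℝ), w ≠ 0 →
    0 < iteratedDeriv 2 (fun s : ℝ => H (covec x (p + s • w))) 0
  superlinear : ∃ g : ∀ x : M, (TangentSpace 𝓘(ℝ, F) x →L[ℝ] ℝ) →ₗ[ℝ]
      (TangentSpace 𝓘(ℝ, F) x →L[ℝ] ℝ) →ₗ[ℝ] ℝ,
    (∀ x p q, g x p q = g x q p) ∧ (∀ x p, p ≠ 0 → 0 < g x p p) ∧
    ContMDiff (ITStar F) 𝓘(ℝ, ℝ) ∞ (fun ξ : TStar F M => g (foot ξ) (lform ξ) (lform ξ)) ∧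
    ∀ C : ℝ, ∃ K : ℝ, ∀ (x : M) (p : TangentSpace 𝓘(ℝ, F) x →L[ℝ] ℝ),
      K ≤ √(g x p p) → C * √(g x p p) ≤ H (covec x p)

/-- `X` is the value at `ξ` of the Hamiltonian vector field `X_H = (∂H/∂p, -∂H/∂x)`, that is,
`ω(X, w) = - dH(w)` for all `w`. -/
def IsHamiltonianVector (H : TStar F M → ℝ) (ξ : TStar F M)
    (X : TangentSpace (ITStar F) ξ) : Prop :=
  ∀ w : TangentSpace (ITStar F) ξ, omega ξ X w = -diff H ξ w

/-- The exterior derivative of a one-form on `T*M`. -/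
def dT (lam : (ξ : TStar F M) → TangentSpace (ITStar F) ξ →L[ℝ] ℝ) (ξ : TStar F M)
    (u v : TangentSpace (ITStar F) ξ) : ℝ :=
  extDer (ITStar F) lam ξ u v

/-- `d lam = ω` on `Σ_h = {H = h}`, that is, on the vectors tangent to `Σ_h`. -/
def IsPrimitiveOn (lam : (ξ : TStar F M) → TangentSpace (ITStar F) ξ →L[ℝ] ℝ)
    (H : TStar F M → ℝ) (h : ℝ) : Prop :=
  ∀ ξ, H ξ = h → ∀ u v, diff H ξ u = 0 → diff H ξ v = 0 → dT lam ξ u v = omega ξ u v

/-- `lam(X_H) > 0` on `Σ_h = {H = h}`. -/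
def IsPositiveOn (lam : (ξ : TStar F M) → TangentSpace (ITStar F) ξ →L[ℝ] ℝ)
    (H : TStar F M → ℝ) (h : ℝ) : Prop :=
  ∀ ξ, H ξ = h → (∃ X, IsHamiltonianVector H ξ X) ∧ ∀ X, IsHamiltonianVector H ξ X → 0 < lam ξ X

/-- The energy level `Σ_h = {H = h}` is of contact type: there is a one-form `lam` on `Σ_h` (the
restriction of a smooth one-form on `T*M`) with `d lam = ω` and `lam(X_H) > 0` on `Σ_h`. -/
def IsContactType (H : TStar F M → ℝ) (h : ℝ) : Prop :=
  ∃ lam : (ξ : TStar F M) → TangentSpace (ITStar F) ξ →L[ℝ] ℝ,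
    SmoothForm lam ∧ IsPrimitiveOn lam H h ∧ IsPositiveOn lam H h

/-- The set of all `h` such that the energy level `Σ_h` projects onto `M`; its minimum is `e₀`. -/
def projectingLevels (H : TStar F M → ℝ) : Set ℝ :=
  {h | ∀ x : M, ∃ p : TangentSpace 𝓘(ℝ, F) x →L[ℝ] ℝ, H (covec x p) = h}

/-- The lift of the Hamiltonian `H` on `T*M` to `T*M'` along the local diffeomorphism
`q : M' → M`: `(x, p) ↦ H(q x, p ∘ (dq_x)⁻¹)`. -/
def liftHamiltonian (q : M' → M) (H : TStar F M → ℝ) (ξ : TStar F M') : ℝ :=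
  H (covec (q (foot ξ))
    ((lform ξ).comp (ContinuousLinearMap.inverse (mfderiv 𝓘(ℝ, F) 𝓘(ℝ, F) q (foot ξ)))))

/-- The set of all `k` such that `H(x, d_x u) ≤ k` for all `x`, for some smooth function `u`. Its
infimum is `inf_u sup_x H(x, d_x u)`, the Mañé critical value of `H`. -/
def criticalLevels (H : TStar F M → ℝ) : Set ℝ :=
  {k | ∃ u : M → ℝ, ContMDiff 𝓘(ℝ, F) 𝓘(ℝ, ℝ) ∞ u ∧
    ∀ x : M, H (covec x (mfderiv 𝓘(ℝ, F) 𝓘(ℝ, ℝ) u x)) ≤ k}

/-- `q : M' → M` is the universal covering of the smooth manifold `M`. -/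
structure IsUniversalCovering (q : M' → M) : Prop where
  simplyConnected : SimplyConnectedSpace M'
  isCoveringMap : IsCoveringMap q
  isLocalDiffeomorph : IsLocalDiffeomorph 𝓘(ℝ, F) 𝓘(ℝ, F) ∞ q

end Pool.Agent.U880.CT
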