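import Mathlib
import Pool.Agent.W630.Model

/-!
# The compact quotient of the solvable group `Sol`
-/

open scoped Topology ContDiff Manifold Matrix
open Set Pool.Agent.Helper186 Pool.Agent.W630

noncomputable section

namespace Pool.Agent.U880.CT

/-- The group `ℤ² ⋊ ℤ`. -/
abbrev GG : Type := Gam 1

instance actP' : MulAction GG P where
  smul g v := actP g v
  one_smul v := actP_one v
  mul_smul g h v := actP_mul g h v

lemma smul_eq (g : GG) (v : P) : g • v = actP g v := rfl

instance : ContinuousConstSMul GG P := ⟨fun g => continuous_actP g⟩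

instance : SmoothAct GG P := ⟨fun g => contDiff_actP g⟩

instance : NeZero (1 : ℤ) := ⟨one_ne_zero⟩

instance : IsCancelSMul GG P where
  left_cancel' g v w h := by
    have := congrArg (fun x => g⁻¹ • x) h
    simpa using this
  right_cancel' g h v e := actP_cancel e

instance : ProperlyDiscontinuousSMul GG P where
  finite_disjoint_inter_image := by
    intro K L hK hL
    refine (actP_finite (k := 1) hK hL).subset ?_
    rintro g hg
    exact hg

/-- The closed 3-manifold `ℝ³ / (ℤ² ⋊ ℤ)`. -/
abbrev MM : Type := Qt GG P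

instance : CompactSpace MM := by
  refine ⟨?_⟩
  have h1 : (univ : Set MM) = qm GG '' Metric.closedBall (0 : P) (max 1 |((1 : ℤ) : ℝ)|) := by
    symm
    rw [eq_univ_iff_forall]
    intro x
    obtain ⟨v, rfl⟩ := qm_surj x
    obtain ⟨g, hg⟩ := exists_small (k := 1) v
    refine ⟨g • v, ?_, qm_smul g v⟩
    rw [smul_eq, mem_closedBall_zero_iff]
    exact hg
  rw [h1]
  exact (isCompact_closedBall _ _).image continuous_qm

instance : ConnectedSpace MM :=
  (Function.Surjective.connectedSpace (f := (qm GG : P → MM)) (fun x => qm_surj x) continuous_qm)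

example : T2Space MM := inferInstance
example : IsManifold 𝓘(ℝ, P) ∞ MM := inferInstance

lemma qm_covering : IsCoveringMap (qm GG : P → MM) :=
  (isQuotientCoveringMap_quotientMk_of_properlyDiscontinuousSMul (G := GG) (E := P)).isCoveringMap

lemma qm_localDiffeo : IsLocalDiffeomorph 𝓘(ℝ, P) 𝓘(ℝ, P) ∞ (qm GG : P → MM) := by
  intro v
  refine ⟨⟨(sec GG P v).symm.toPartialEquiv, (sec GG P v).open_target, (sec GG P v).open_source,
    ?_, ?_⟩, mem_sec_target v, ?_⟩
  · intro w hw
    have : ContMDiffAt 𝓘(ℝ, P) 𝓘(ℝ, P) ∞ ((sec GG P v).symm : P → MM) w := by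
      rw [sec_symm]; exact contMDiff_qm w
    exact this.contMDiffWithinAt
  · intro x hx
    exact (contMDiffAt_sec hx).contMDiffWithinAt
  · intro w hw
    exact (congrFun (sec_symm (G := GG) v) w).symm

end Pool.Agent.U880.CT
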