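import Mathlib
import Pool.Agent.Helper186.Cot
import Pool.Agent.Helper186.DForms

/-!
# Auxiliary versions of the definitions, in terms of `Cotangent`
-/

open scoped Topology ContDiff Manifold
open Set Pool.Agent.Helper186

noncomputable section

namespace Pool.Agent.U880.CT.Old

variable {F : Type*} [NormedAddCommGroup F] [NormedSpace ℝ F] [FiniteDimensional ℝ F]
  {M : Type*} [TopologicalSpace M] [ChartedSpace F M] [IsManifold 𝓘(ℝ, F) ∞ M]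
  {M' : Type*} [TopologicalSpace M'] [ChartedSpace F M'] [IsManifold 𝓘(ℝ, F) ∞ M']

structure IsConvexSuperlinear (H : Cotangent F M → ℝ) : Prop where
  contMDiff : ContMDiff (IC F) 𝓘(ℝ, ℝ) 2 H
  convex : ∀ (x : M) (p w : TangentSpace 𝓘(ℝ, F) x →L[ℝ] ℝ), w ≠ 0 →
    0 < iteratedDeriv 2 (fun s : ℝ => H ⟨x, p + s • w⟩) 0
  superlinear : ∃ g : ∀ x : M, (TangentSpace 𝓘(ℝ, F) x →L[ℝ] ℝ) →ₗ[ℝ]
      (TangentSpace 𝓘(ℝ, F) x →L[ℝ] ℝ) →ₗ[ℝ] ℝ,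
    (∀ x p q, g x p q = g x q p) ∧ (∀ x p, p ≠ 0 → 0 < g x p p) ∧
    ContMDiff (IC F) 𝓘(ℝ, ℝ) ∞ (fun ξ : Cotangent F M => g ξ.1 ξ.2 ξ.2) ∧
    ∀ C : ℝ, ∃ K : ℝ, ∀ ξ : Cotangent F M,
      K ≤ √(g ξ.1 ξ.2 ξ.2) → C * √(g ξ.1 ξ.2 ξ.2) ≤ H ξ

def omega (ξ : Cotangent F M) (u v : TangentSpace (IC F) ξ) : ℝ :=
  extDer (IC F) (canForm : (ξ : Cotangent F M) → TangentSpace (IC F) ξ →L[ℝ] ℝ) ξ u v

def IsHamiltonianVector (H : Cotangent F M → ℝ) (ξ : Cotangent F M)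
    (X : TangentSpace (IC F) ξ) : Prop :=
  ∀ w : TangentSpace (IC F) ξ, omega ξ X w = -(show ℝ from mfderiv (IC F) 𝓘(ℝ, ℝ) H ξ w)

def IsContactType (H : Cotangent F M → ℝ) (h : ℝ) : Prop :=
  ∃ lam : (ξ : Cotangent F M) → TangentSpace (IC F) ξ →L[ℝ] ℝ, SmoothForm lam ∧
    (∀ ξ, H ξ = h → ∀ u v : TangentSpace (IC F) ξ,
      (show ℝ from mfderiv (IC F) 𝓘(ℝ, ℝ) H ξ u) = 0 →
      (show ℝ from mfderiv (IC F) 𝓘(ℝ, ℝ) H ξ v) = 0 →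
      extDer (IC F) lam ξ u v = omega ξ u v) ∧
    ∀ ξ, H ξ = h → (∃ X, IsHamiltonianVector H ξ X) ∧
      ∀ X, IsHamiltonianVector H ξ X → 0 < lam ξ X

def projectingLevels (H : Cotangent F M → ℝ) : Set ℝ :=
  {h | ∀ x : M, ∃ p : TangentSpace 𝓘(ℝ, F) x →L[ℝ] ℝ, H ⟨x, p⟩ = h}

def liftHamiltonian (π : M' → M) (H : Cotangent F M → ℝ) (ξ : Cotangent F M') : ℝ :=
  H ⟨π ξ.1, ξ.2.comp (ContinuousLinearMap.inverse (mfderiv 𝓘(ℝ, F) 𝓘(ℝ, F) π ξ.1))⟩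

def criticalLevels (H : Cotangent F M → ℝ) : Set ℝ :=
  {k | ∃ u : M → ℝ, ContMDiff 𝓘(ℝ, F) 𝓘(ℝ, ℝ) ∞ u ∧
    ∀ x : M, H ⟨x, mfderiv 𝓘(ℝ, F) 𝓘(ℝ, ℝ) u x⟩ ≤ k}

end Pool.Agent.U880.CT.Old
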