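import Mathlib
import Pool.Agent.U880.CT.Act
import Pool.Agent.U880.CT.Old

/-!
# The invariant frame of `Sol`, and the momentum functions
-/

open scoped Topology ContDiff Manifold Matrix
open Set Bundle Pool.Agent.Helper186 Pool.Agent.W630 Pool.Agent.U880.CT.Old

noncomputable section

namespace Pool.Agent.U880.CT

lemma mu_add_inv : mu + mu⁻¹ = 3 := by
  have h := mu_eq
  have h2 : mu * mu⁻¹ = 1 := mul_inv_cancel₀ mu_ne
  have h3 : mu * (mu + mu⁻¹ - 3) = 0 := by linear_combination h + h2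
  have := (mul_eq_zero.1 h3).resolve_left mu_ne
  linarith

lemma two_mu_ne : 2 * mu - 3 ≠ 0 := by
  have h1 := mu_add_inv
  have h2 := one_lt_mu
  have h3 : mu⁻¹ < 1 := inv_lt_one_of_one_lt₀ h2
  intro h
  linarith

lemma two_muinv_ne : 2 * mu⁻¹ - 3 ≠ 0 := by
  have h1 := mu_add_inv
  have h2 := one_lt_mu
  have h3 : mu⁻¹ < 1 := inv_lt_one_of_one_lt₀ h2
  intro h
  linarith

/-- The eigenvector for the eigenvalue `μ`, with `ξ = 1`. -/
def ex : P := (2 * mu - 3)⁻¹ • ![mu - 1, 1, 0]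

/-- The eigenvector for the eigenvalue `μ⁻¹`, with `ζ = 1`. -/
def ey : P := (2 * mu⁻¹ - 3)⁻¹ • ![mu⁻¹ - 1, 1, 0]

/-- The third vector, with third coordinate `1 / log μ`. -/
def et : P := cc⁻¹ • ![0, 0, 1]

lemma xi_ex : xi ex = 1 := by
  have := two_mu_ne
  unfold xi ex
  rw [map_smul, eigL_apply]
  simp only [Matrix.cons_val, smul_eq_mul]
  field_simp
  ring

lemma ze_ex : ze ex = 0 := by
  unfold ze ex
  rw [map_smul, eigL_apply]
  simp only [Matrix.cons_val, smul_eq_mul]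
  rw [show mu - 1 + (mu⁻¹ - 2) * 1 = 0 by linarith [mu_add_inv], mul_zero]

lemma zL_ex : zL ex = 0 := by simp [ex]

lemma xi_ey : xi ey = 0 := by
  unfold xi ey
  rw [map_smul, eigL_apply]
  simp only [Matrix.cons_val, smul_eq_mul]
  rw [show mu⁻¹ - 1 + (mu - 2) * 1 = 0 by linarith [mu_add_inv], mul_zero]

lemma ze_ey : ze ey = 1 := by
  have := two_muinv_ne
  unfold ze ey
  rw [map_smul, eigL_apply]
  simp only [Matrix.cons_val, smul_eq_mul]
  rw [show mu⁻¹ - 1 + (mu⁻¹ - 2) * 1 = 2 * mu⁻¹ - 3 by ring]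
  exact inv_mul_cancel₀ this

lemma zL_ey : zL ey = 0 := by simp [ey]

lemma xi_et : xi et = 0 := by
  unfold xi et
  rw [map_smul, eigL_apply]
  simp

lemma ze_et : ze et = 0 := by
  unfold ze et
  rw [map_smul, eigL_apply]
  simp

lemma zL_et : zL et = cc⁻¹ := by simp [et]

lemma eq_of_forms {x y : P} (h1 : xi x = xi y) (h2 : ze x = ze y) (h3 : zL x = zL y) : x = y := by
  rw [← sub_eq_zero]
  apply eq_zero_of_forms
  · rw [map_sub, h1, sub_self]
  · rw [map_sub, h2, sub_self]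
  · rw [map_sub, h3, sub_self]

/-- expansion of a vector in the frame -/
lemma expand (x : P) : x = (cc * zL x) • et + xi x • ex + ze x • ey := by
  apply eq_of_forms
  · simp only [map_add, map_smul, xi_et, xi_ex, xi_ey, smul_eq_mul]; ring
  · simp only [map_add, map_smul, ze_et, ze_ex, ze_ey, smul_eq_mul]; ring
  · simp only [map_add, map_smul, zL_et, zL_ex, zL_ey, smul_eq_mul]
    have := cc_ne
    field_simp
    ring

/-- The three invariant vector fields. -/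
def Zt (_ : P) : P := et
def Zx (v : P) : P := Real.exp (cc * zL v) • ex
def Zy (v : P) : P := Real.exp (-(cc * zL v)) • ey

lemma contDiff_Zt : ContDiff ℝ ∞ Zt := contDiff_const
lemma contDiff_Zx : ContDiff ℝ ∞ Zx :=
  ((Real.contDiff_exp.comp (contDiff_const.mul zL.contDiff))).smul contDiff_const
lemma contDiff_Zy : ContDiff ℝ ∞ Zy :=
  ((Real.contDiff_exp.comp (contDiff_const.mul zL.contDiff).neg)).smul contDiff_const

lemma dact_eq (g : GG) (v : P) : dact g v = linL (Gam.pw 1 g.m) := by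
  unfold dact
  have h : (fun w : P => g • w) = fun w => linL (Gam.pw 1 g.m) w + trv g.n (1 * g.m) := rfl
  rw [h]
  exact ((linL (Gam.pw 1 g.m)).hasFDerivAt.add_const _).fderiv

lemma zL_smul (g : GG) (v : P) : zL (g • v) = zL v + g.m := by
  show zL (actP g v) = _
  simp [actP, trv, lin]

lemma Zt_inv (g : GG) (v : P) : Zt (g • v) = dact g v (Zt v) := by
  rw [dact_eq, linL_apply]
  apply eq_of_forms
  · rw [xi_pw]; simp [Zt, xi_et]
  · rw [ze_pw]; simp [Zt, ze_et]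
  · rw [zL_pw]; rfl

lemma Zx_inv (g : GG) (v : P) : Zx (g • v) = dact g v (Zx v) := by
  rw [dact_eq, linL_apply]
  apply eq_of_forms
  · rw [xi_pw]
    simp only [Zx, map_smul, xi_ex, zL_smul, smul_eq_mul, mul_one]
    rw [← Real.exp_add]
    congr 1
    push_cast
    ring
  · rw [ze_pw]; simp [Zx, ze_ex]
  · rw [zL_pw]; simp only [Zx, map_smul, zL_ex, smul_eq_mul, mul_zero]

lemma Zy_inv (g : GG) (v : P) : Zy (g • v) = dact g v (Zy v) := by
  rw [dact_eq, linL_apply]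
  apply eq_of_forms
  · rw [xi_pw]; simp [Zy, xi_ey]
  · rw [ze_pw]
    simp only [Zy, map_smul, ze_ey, zL_smul, smul_eq_mul, mul_one]
    rw [← Real.exp_add]
    congr 1
    push_cast
    ring
  · rw [zL_pw]; simp only [Zy, map_smul, zL_ey, smul_eq_mul, mul_zero]

/-! ### Momentum functions on the cotangent bundle of the quotient -/

/-- The function `ξ ↦ ξ(Z)` on the cotangent bundle of the quotient. -/
def mom (Z : P → P) (ξ : Cotangent P MM) : ℝ := ξ.2 (descV GG Z ξ.1)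

lemma contMDiff_descV {Z : P → P} (hZ : ∀ (g : GG) v, Z (g • v) = dact g v (Z v))
    (hs : ContDiff ℝ ∞ Z) : ContMDiff 𝓘(ℝ, P) 𝓘(ℝ, P).tangent ∞
      (fun x : MM => (⟨x, descV GG Z x⟩ : TangentBundle 𝓘(ℝ, P) MM)) := by
  apply contMDiff_of_comp_qm
  have h1 : ContMDiff 𝓘(ℝ, P).tangent 𝓘(ℝ, P).tangent ∞
      (tangentMap 𝓘(ℝ, P) 𝓘(ℝ, P) (qm GG : P → MM)) := contMDiff_qm.contMDiff_tangentMap (by simp)
  have h2 : ContMDiff 𝓘(ℝ, P) 𝓘(ℝ, P).tangent ∞
      (fun y : P => (⟨y, Z y⟩ : TangentBundle 𝓘(ℝ, P) P)) :=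
    contMDiff_vectorSpace_iff_contDiff.2 hs
  have h3 := h1.comp h2
  refine h3.congr fun w => ?_
  show (⟨qm GG w, descV GG Z (qm GG w)⟩ : TangentBundle 𝓘(ℝ, P) MM) = ⟨qm GG w, dq GG w (Z w)⟩
  rw [descV_qm hZ]

lemma contMDiff_mom {Z : P → P} (hZ : ∀ (g : GG) v, Z (g • v) = dact g v (Z v))
    (hs : ContDiff ℝ ∞ Z) : ContMDiff (IC P) 𝓘(ℝ, ℝ) ∞ (mom Z) := by
  intro ξ
  exact contMDiffAt_cot_pairing (f := fun ξ : Cotangent P MM => ξ)
    (v := fun ξ => descV GG Z ξ.1) contMDiffAt_id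
    (((contMDiff_descV hZ hs).comp contMDiff_projC) ξ)

/-! ### The covering of cotangent bundles -/

/-- `T*ℝ³` as a normed space. -/
abbrev TP : Type := P × (P →L[ℝ] ℝ)

/-- The covering `T*ℝ³ → T*M`. -/
def Phi (w : TP) : Cotangent P MM :=
  ⟨qm GG w.1, (show P →L[ℝ] ℝ from w.2.comp (ds GG w.1))⟩

lemma Phi_surj (ξ : Cotangent P MM) : ∃ w, Phi w = ξ := by
  obtain ⟨x, p⟩ := ξ
  obtain ⟨v, rfl⟩ := qm_surj x
  refine ⟨(v, (show P →L[ℝ] ℝ from p).comp (dq GG v)), ?_⟩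
  unfold Phi
  congr 1
  refine ContinuousLinearMap.ext fun u => ?_
  show (show P →L[ℝ] ℝ from p) (dq GG v (ds GG v u)) = _
  rw [dq_ds]

lemma mom_Phi {Z : P → P} (hZ : ∀ (g : GG) v, Z (g • v) = dact g v (Z v)) (w : TP) :
    mom Z (Phi w) = w.2 (Z w.1) := by
  show w.2 (ds GG w.1 (descV GG Z (qm GG w.1))) = _
  rw [descV_qm hZ, ds_dq]

lemma dsec_eq {v w : P} (hw : w ∈ (sec GG P v).target) : dsec GG v w = ds GG w := by
  refine ContinuousLinearMap.ext fun u => ?_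
  obtain ⟨u', rfl⟩ := dq_surjective (G := GG) w u
  rw [ds_dq]
  exact congrArg (fun L : P →L[ℝ] P => L u') (mfderiv_sec (G := GG) hw)

lemma contMDiff_Phi : ContMDiff 𝓘(ℝ, TP) (IC P) ∞ Phi := by
  intro w₀
  refine contMDiffAt_cot_of_pairing (b := fun w : TP => qm GG w.1)
    (θ := fun w => (show P →L[ℝ] ℝ from w.2.comp (ds GG w.1))) ?_ ?_
  · exact (contMDiff_qm w₀.1).comp w₀ contDiff_fst.contMDiff.contMDiffAt
  · intro v hv
    have hp : qm GG w₀.1 ∈ (sec GG P w₀.1).source := mem_sec_source w₀.1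
    have h1 : ContMDiffAt 𝓘(ℝ, P).tangent 𝓘(ℝ, P).tangent ∞
        (tangentMap 𝓘(ℝ, P) 𝓘(ℝ, P) (sec GG P w₀.1))
        (⟨qm GG w₀.1, v w₀⟩ : TangentBundle 𝓘(ℝ, P) MM) :=
      contMDiffAt_tangentMap (sec GG P w₀.1).open_source
        (fun x hx => (contMDiffAt_sec hx).contMDiffWithinAt) hp
    have h2 := h1.comp w₀ hv
    have key : ∀ α : P →L[ℝ] ℝ, ContMDiffAt 𝓘(ℝ, TP) 𝓘(ℝ, ℝ) ∞
        (fun w : TP => α (ds GG w.1 (v w))) w₀ := by
      intro α
      have h3 := (smoothForm_of_contDiff (contDiff_const (c := α)) _).comp w₀ h2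
      refine h3.congr_of_eventuallyEq ?_
      have h4 : (Prod.fst ⁻¹' (sec GG P w₀.1).target : Set TP) ∈ 𝓝 w₀ :=
        ((sec GG P w₀.1).open_target.preimage continuous_fst).mem_nhds (mem_sec_target w₀.1)
      filter_upwards [h4] with w hw
      show α (ds GG w.1 (v w)) = α (dsec GG w₀.1 w.1 (v w))
      rw [dsec_eq hw]
    have h5 : ∀ e : P, ContMDiffAt 𝓘(ℝ, TP) 𝓘(ℝ, ℝ) ∞ (fun w : TP => w.2 e) w₀ := by
      intro e
      exact (contDiff_snd.clm_apply contDiff_const).contMDiff.contMDiffAt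
    have h6 := (((contMDiffAt_const (c := cc)).mul (key zL)).mul (h5 et)).add
      (((key xi).mul (h5 ex)).add ((key ze).mul (h5 ey)))
    refine h6.congr_of_eventuallyEq (Filter.Eventually.of_forall fun w => ?_)
    show w.2 (ds GG w.1 (v w)) = _
    conv_lhs => rw [expand (ds GG w.1 (v w))]
    simp only [map_add, map_smul, smul_eq_mul, Pi.add_apply, Pi.mul_apply]
    ring

end Pool.Agent.U880.CT
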