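import Mathlib
import Pool.Agent.U880.CT.Frame

/-!
# The canonical forms on `T*M` pulled back to `T*ℝ³`
-/

open scoped Topology ContDiff Manifold Matrix
open Set Bundle Pool.Agent.Helper186 Pool.Agent.W630 Pool.Agent.U880.CT.Old

noncomputable section

namespace Pool.Agent.U880.CT

lemma inj_surj (L : TP →ₗ[ℝ] TP) (h : Function.Injective L) : Function.Surjective L :=
  LinearMap.injective_iff_surjective.1 h

/-- The differential of the covering of cotangent bundles. -/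
def dPhi (w : TP) (x : TP) : TangentSpace (IC P) (Phi w) := mfderiv 𝓘(ℝ, TP) (IC P) Phi w x

lemma mdiff_Phi (w : TP) : MDifferentiableAt 𝓘(ℝ, TP) (IC P) Phi w :=
  (contMDiff_Phi w).mdifferentiableAt (by simp)

lemma mfderiv_fst_TP (w x : TP) :
    (mfderiv 𝓘(ℝ, TP) 𝓘(ℝ, P) (Prod.fst : TP → P) w x : P) = x.1 := by
  rw [mfderiv_eq_fderiv]
  have h : HasFDerivAt (Prod.fst : TP → P) (ContinuousLinearMap.fst ℝ P (P →L[ℝ] ℝ)) w :=
    hasFDerivAt_fst
  rw [h.fderiv]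
  rfl

lemma proj_dPhi (w x : TP) :
    (mfderiv (IC P) 𝓘(ℝ, P) (TotalSpace.proj : Cotangent P MM → MM) (Phi w) (dPhi w x) : P) =
      dq GG w.1 x.1 := by
  have h1 := mfderiv_comp (I := 𝓘(ℝ, TP)) (I' := IC P) (I'' := 𝓘(ℝ, P)) w
    (contMDiff_projC.mdifferentiableAt (by simp) (x := Phi w)) (mdiff_Phi w)
  have h2 : ((TotalSpace.proj : Cotangent P MM → MM) ∘ Phi) = qm GG ∘ Prod.fst := rfl
  have h3 := mfderiv_comp (I := 𝓘(ℝ, TP)) (I' := 𝓘(ℝ, P)) (I'' := 𝓘(ℝ, P)) w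
    (mdiff_qm (G := GG) w.1) (f := Prod.fst)
    (contDiff_fst.contMDiff.contMDiffAt.mdifferentiableAt (n := ∞) (by simp))
  rw [h2, h3] at h1
  have h4 := DFunLike.congr_fun h1 x
  refine (h4.symm.trans ?_)
  show dq GG w.1 (mfderiv 𝓘(ℝ, TP) 𝓘(ℝ, P) (Prod.fst : TP → P) w x) = _
  rw [mfderiv_fst_TP]

lemma can_dPhi (w x : TP) : canForm (Phi w) (dPhi w x) = w.2 x.1 := by
  show w.2 (ds GG w.1
    (mfderiv (IC P) 𝓘(ℝ, P) (TotalSpace.proj : Cotangent P MM → MM) (Phi w) (dPhi w x))) = _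
  rw [proj_dPhi, ds_dq]

lemma omega_dPhi (w x y : TP) : omega (Phi w) (dPhi w x) (dPhi w y) = x.2 y.1 - y.2 x.1 := by
  have h1 := extDer_pullback (I := IC P)
    (smoothForm_canForm (F := P) (L := MM)) (S := Phi) isOpen_univ contMDiff_Phi.contMDiffOn
    (mem_univ w) x y
  have h2 : ∀ z : TP, (fun q : TP => canForm (Phi q) (mfderiv 𝓘(ℝ, TP) (IC P) Phi q z)) =
      fun q => q.2 z.1 := by
    intro z; funext q; exact can_dPhi q z
  have h3 : ∀ z u : TP, fderiv ℝ (fun q : TP => q.2 z.1) w u = u.2 z.1 := by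
    intro z u
    have h4 : HasFDerivAt (fun q : TP => q.2 z.1)
        ((ContinuousLinearMap.apply ℝ ℝ z.1).comp (ContinuousLinearMap.snd ℝ P (P →L[ℝ] ℝ))) w :=
      ((ContinuousLinearMap.apply ℝ ℝ z.1).comp
        (ContinuousLinearMap.snd ℝ P (P →L[ℝ] ℝ))).hasFDerivAt
    rw [h4.fderiv]; rfl
  rw [h2, h2, h3, h3] at h1
  exact h1

lemma exists_functional {v : P} (hv : v ≠ 0) : ∃ b : P →L[ℝ] ℝ, b v ≠ 0 := by
  by_contra h
  push Not at h
  exact hv (eq_zero_of_forms (h xi) (h ze) (h zL))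

lemma dPhi_injective (w : TP) : Function.Injective (dPhi w) := by
  have h0 : ∀ x : TP, dPhi w x = 0 → x = 0 := by
    intro x hx
    have h1 : ∀ y : TP, x.2 y.1 - y.2 x.1 = 0 := by
      intro y
      rw [← omega_dPhi, hx]
      show extDerL (IC P) canForm (Phi w) 0 (dPhi w y) = 0
      simp
    have h2 : x.1 = 0 := by
      by_contra h
      obtain ⟨b, hb⟩ := exists_functional h
      have := h1 (0, b)
      simp at this
      exact hb this
    have h3 : x.2 = 0 := by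
      refine ContinuousLinearMap.ext fun v => ?_
      have := h1 (v, 0)
      simpa using this
    exact Prod.ext h2 h3
  intro x y hxy
  have h1 : dPhi w (x - y) = 0 := by
    have : dPhi w (x - y) = dPhi w x - dPhi w y :=
      map_sub (mfderiv 𝓘(ℝ, TP) (IC P) Phi w) x y
    rw [this, hxy, sub_self]
  exact sub_eq_zero.1 (h0 _ h1)

lemma dPhi_surjective (w : TP) : Function.Surjective (dPhi w) := by
  let L : TP →L[ℝ] TP := mfderiv 𝓘(ℝ, TP) (IC P) Phi w
  have h1 : Function.Injective (L : TP →ₗ[ℝ] TP) := dPhi_injective w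
  have h2 : Function.Surjective (L : TP →ₗ[ℝ] TP) := inj_surj _ h1
  exact h2

lemma mfderiv_comp_Phi {f : Cotangent P MM → ℝ} (hf : ContMDiff (IC P) 𝓘(ℝ, ℝ) ∞ f) (w x : TP) :
    (show ℝ from mfderiv (IC P) 𝓘(ℝ, ℝ) f (Phi w) (dPhi w x)) = fderiv ℝ (f ∘ Phi) w x := by
  have h1 := mfderiv_comp (I := 𝓘(ℝ, TP)) (I' := IC P) (I'' := 𝓘(ℝ, ℝ)) w
    (hf.mdifferentiableAt (by simp) (x := Phi w)) (mdiff_Phi w)
  rw [mfderiv_eq_fderiv] at h1
  exact (DFunLike.congr_fun h1 x).symm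

end Pool.Agent.U880.CT
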