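import Mathlib
import Pool.Agent.U880.CT.Pullb

/-!
# The Hamiltonian, and the contact form on its energy levels
-/

open scoped Topology ContDiff Manifold Matrix
open Set Bundle Pool.Agent.Helper186 Pool.Agent.W630 Pool.Agent.U880.CT.Old

noncomputable section

namespace Pool.Agent.U880.CT

/-- The Hamiltonian `(P_t² + (P_x - 1)² + P_y²) / 2`. -/
def Ham (ξ : Cotangent P MM) : ℝ :=
  ((mom Zt ξ) ^ 2 + (mom Zx ξ - 1) ^ 2 + (mom Zy ξ) ^ 2) / 2

/-- The function `P_t (5 - P_x) / 4`. -/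
def ff (ξ : Cotangent P MM) : ℝ := mom Zt ξ * ((5 - mom Zx ξ) / 4)

lemma smooth_t : ContMDiff (IC P) 𝓘(ℝ, ℝ) ∞ (mom Zt) := contMDiff_mom Zt_inv contDiff_Zt
lemma smooth_x : ContMDiff (IC P) 𝓘(ℝ, ℝ) ∞ (mom Zx) := contMDiff_mom Zx_inv contDiff_Zx
lemma smooth_y : ContMDiff (IC P) 𝓘(ℝ, ℝ) ∞ (mom Zy) := contMDiff_mom Zy_inv contDiff_Zy

lemma smooth_poly {g : ℝ × ℝ × ℝ → ℝ} (hg : ContDiff ℝ ∞ g) :
    ContMDiff (IC P) 𝓘(ℝ, ℝ) ∞ (fun ξ : Cotangent P MM => g (mom Zt ξ, mom Zx ξ, mom Zy ξ)) := by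
  have h1 : ContMDiff (IC P) 𝓘(ℝ, ℝ × ℝ × ℝ) ∞
      (fun ξ : Cotangent P MM => (mom Zt ξ, mom Zx ξ, mom Zy ξ)) :=
    smooth_t.prodMk_space (smooth_x.prodMk_space smooth_y)
  exact hg.contMDiff.comp h1

lemma smooth_Ham : ContMDiff (IC P) 𝓘(ℝ, ℝ) ∞ Ham :=
  smooth_poly (g := fun q => (q.1 ^ 2 + (q.2.1 - 1) ^ 2 + q.2.2 ^ 2) / 2) (by fun_prop)

lemma smooth_ff : ContMDiff (IC P) 𝓘(ℝ, ℝ) ∞ ff :=
  smooth_poly (g := fun q => q.1 * ((5 - q.2.1) / 4)) (by fun_prop)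

/-- momenta on `T*ℝ³` -/
def pt (w : TP) : ℝ := w.2 et
def px (w : TP) : ℝ := w.2 (Zx w.1)
def py (w : TP) : ℝ := w.2 (Zy w.1)

lemma mom_t (w : TP) : mom Zt (Phi w) = pt w := mom_Phi Zt_inv w
lemma mom_x (w : TP) : mom Zx (Phi w) = px w := mom_Phi Zx_inv w
lemma mom_y (w : TP) : mom Zy (Phi w) = py w := mom_Phi Zy_inv w

lemma hasFDerivAt_pt (w : TP) : ∃ L : TP →L[ℝ] ℝ, HasFDerivAt pt L w ∧ ∀ x, L x = x.2 et := by
  refine ⟨(ContinuousLinearMap.apply ℝ ℝ et).comp (ContinuousLinearMap.snd ℝ P (P →L[ℝ] ℝ)),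
    ((ContinuousLinearMap.apply ℝ ℝ et).comp
      (ContinuousLinearMap.snd ℝ P (P →L[ℝ] ℝ))).hasFDerivAt, fun x => rfl⟩

lemma hasFDerivAt_scaled (c : ℝ) (e : P) (w : TP) : ∃ L : TP →L[ℝ] ℝ,
    HasFDerivAt (fun w : TP => w.2 (Real.exp (c * zL w.1) • e)) L w ∧
    ∀ x, L x = x.2 (Real.exp (c * zL w.1) • e) +
      c * zL x.1 * w.2 (Real.exp (c * zL w.1) • e) := by
  have h1 : HasFDerivAt (fun w : TP => w.2 e)
      ((ContinuousLinearMap.apply ℝ ℝ e).comp (ContinuousLinearMap.snd ℝ P (P →L[ℝ] ℝ))) w :=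
    ((ContinuousLinearMap.apply ℝ ℝ e).comp (ContinuousLinearMap.snd ℝ P (P →L[ℝ] ℝ))).hasFDerivAt
  have h2 : HasFDerivAt (fun w : TP => c * zL w.1)
      (c • (zL.comp (ContinuousLinearMap.fst ℝ P (P →L[ℝ] ℝ)))) w :=
    ((zL.comp (ContinuousLinearMap.fst ℝ P (P →L[ℝ] ℝ))).hasFDerivAt).const_mul c
  have h3 := (h2.exp).mul h1
  have h4 : (fun w : TP => w.2 (Real.exp (c * zL w.1) • e)) =
      fun w : TP => Real.exp (c * zL w.1) * w.2 e := by
    funext w; rw [map_smul, smul_eq_mul]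
  rw [h4]
  refine ⟨_, h3, fun x => ?_⟩
  simp only [ContinuousLinearMap.add_apply, ContinuousLinearMap.smul_apply,
    ContinuousLinearMap.comp_apply, ContinuousLinearMap.coe_fst', ContinuousLinearMap.coe_snd',
    ContinuousLinearMap.apply_apply, smul_eq_mul, map_smul]
  ring

lemma hasFDerivAt_px (w : TP) : ∃ L : TP →L[ℝ] ℝ, HasFDerivAt px L w ∧
    ∀ x, L x = x.2 (Zx w.1) + cc * zL x.1 * px w := hasFDerivAt_scaled cc ex w

lemma hasFDerivAt_py (w : TP) : ∃ L : TP →L[ℝ] ℝ, HasFDerivAt py L w ∧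
    ∀ x, L x = x.2 (Zy w.1) + -cc * zL x.1 * py w := by
  obtain ⟨L, h1, h2⟩ := hasFDerivAt_scaled (-cc) ey w
  have e : ∀ w : TP, -cc * zL w.1 = -(cc * zL w.1) := fun w => by ring
  simp only [e] at h1 h2
  exact ⟨L, h1, fun x => by rw [h2]; unfold py Zy; ring⟩

lemma fderiv_Ham (w x : TP) : fderiv ℝ (Ham ∘ Phi) w x =
    pt w * x.2 et + (px w - 1) * (x.2 (Zx w.1) + cc * zL x.1 * px w) +
      py w * (x.2 (Zy w.1) + -cc * zL x.1 * py w) := by
  obtain ⟨L1, h1, e1⟩ := hasFDerivAt_pt w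
  obtain ⟨L2, h2, e2⟩ := hasFDerivAt_px w
  obtain ⟨L3, h3, e3⟩ := hasFDerivAt_py w
  have h0 : Ham ∘ Phi = fun w => ((pt w) ^ 2 + (px w - 1) ^ 2 + (py w) ^ 2) * (1 / 2) := by
    funext w
    simp only [Function.comp_apply, Ham, mom_t, mom_x, mom_y]
    ring
  have h4 := ((((h1.pow 2).add ((h2.sub_const 1).pow 2)).add (h3.pow 2)).mul_const (1 / 2))
  have h5 : HasFDerivAt (fun w => ((pt w) ^ 2 + (px w - 1) ^ 2 + (py w) ^ 2) * (1 / 2)) _ w := h4
  rw [h0, h5.fderiv]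
  simp only [ContinuousLinearMap.add_apply, ContinuousLinearMap.smul_apply, smul_eq_mul, e1, e2, e3]
  ring

lemma fderiv_ff (w x : TP) : fderiv ℝ (ff ∘ Phi) w x =
    x.2 et * ((5 - px w) / 4) - pt w * (x.2 (Zx w.1) + cc * zL x.1 * px w) / 4 := by
  obtain ⟨L1, h1, e1⟩ := hasFDerivAt_pt w
  obtain ⟨L2, h2, e2⟩ := hasFDerivAt_px w
  have h0 : ff ∘ Phi = fun w => pt w * ((5 - px w) * (1 / 4)) := by
    funext w
    simp only [Function.comp_apply, ff, mom_t, mom_x]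
    ring
  have h4 := h1.mul ((h2.const_sub 5).mul_const (1 / 4))
  have h5 : HasFDerivAt (fun w => pt w * ((5 - px w) * (1 / 4))) _ w := h4
  rw [h0, h5.fderiv]
  simp only [ContinuousLinearMap.add_apply, ContinuousLinearMap.smul_apply, smul_eq_mul, e1, e2,
    ContinuousLinearMap.neg_apply]
  ring

lemma isHam_iff (w x : TP) : IsHamiltonianVector Ham (Phi w) (dPhi w x) ↔
    ∀ y : TP, x.2 y.1 - y.2 x.1 = -(pt w * y.2 et +
      (px w - 1) * (y.2 (Zx w.1) + cc * zL y.1 * px w) +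
      py w * (y.2 (Zy w.1) + -cc * zL y.1 * py w)) := by
  constructor
  · intro h y
    have h1 := h (dPhi w y)
    rw [omega_dPhi, mfderiv_comp_Phi smooth_Ham, fderiv_Ham] at h1
    exact h1
  · intro h v
    obtain ⟨y, rfl⟩ := dPhi_surjective w v
    rw [omega_dPhi, mfderiv_comp_Phi smooth_Ham, fderiv_Ham]
    exact h y

lemma exists_ham (w : TP) : ∃ X, IsHamiltonianVector Ham (Phi w) X := by
  refine ⟨dPhi w (pt w • et + (px w - 1) • Zx w.1 + py w • Zy w.1,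
    -(cc * (px w * (px w - 1) - py w ^ 2)) • zL), ?_⟩
  rw [isHam_iff]
  intro y
  simp only [ContinuousLinearMap.smul_apply, map_add, map_smul, smul_eq_mul]
  ring

lemma ham_coords {w x : TP} (h : IsHamiltonianVector Ham (Phi w) (dPhi w x)) :
    w.2 x.1 = pt w ^ 2 + px w * (px w - 1) + py w ^ 2 ∧ zL x.1 = pt w * cc⁻¹ ∧
      x.2 et = -(px w * (px w - 1) - py w ^ 2) ∧ x.2 (Zx w.1) = 0 := by
  rw [isHam_iff] at h
  have hb : ∀ b : P →L[ℝ] ℝ, b x.1 = pt w * b et + (px w - 1) * b (Zx w.1) +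
      py w * b (Zy w.1) := by
    intro b
    have := h (0, b)
    simp only [map_zero, mul_zero, zero_mul, add_zero, zero_sub, neg_inj] at this
    exact this
  have hv : ∀ v : P, x.2 v = -(cc * zL v * (px w * (px w - 1) - py w ^ 2)) := by
    intro v
    have := h (v, 0)
    simp only [ContinuousLinearMap.zero_apply, mul_zero, zero_add, sub_zero] at this
    rw [this]; ring
  have zx : zL (Zx w.1) = 0 := by simp only [Zx, map_smul, zL_ex, smul_eq_mul, mul_zero]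
  have zy : zL (Zy w.1) = 0 := by simp only [Zy, map_smul, zL_ey, smul_eq_mul, mul_zero]
  refine ⟨?_, ?_, ?_, ?_⟩
  · rw [hb]
    show pt w * pt w + (px w - 1) * px w + py w * py w = _
    ring
  · rw [hb, zL_et, zx, zy]; ring
  · rw [hv, zL_et]
    have := cc_ne
    field_simp
  · rw [hv, zx]; ring

/-- The form `p dx + df` is positive on the Hamiltonian vector field. -/
lemma lam_pos {w : TP} {h : ℝ} (h0 : 0 < h) (h1 : h < 1 / 2) (hw : Ham (Phi w) = h)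
    {X : TangentSpace (IC P) (Phi w)} (hX : IsHamiltonianVector Ham (Phi w) X) :
    0 < canForm (Phi w) X + (show ℝ from dForm (IC P) ff (Phi w) X) := by
  obtain ⟨x, rfl⟩ := dPhi_surjective w X
  obtain ⟨a1, a2, a3, a4⟩ := ham_coords hX
  have e1 : (show ℝ from dForm (IC P) ff (Phi w) (dPhi w x)) = fderiv ℝ (ff ∘ Phi) w x :=
    mfderiv_comp_Phi smooth_ff w x
  rw [e1, can_dPhi, fderiv_ff, a1, a2, a3, a4]
  have hH : (pt w ^ 2 + (px w - 1) ^ 2 + py w ^ 2) / 2 = h := by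
    rw [← hw]; simp only [Ham, mom_t, mom_x, mom_y]
  have hcc : cc * (pt w * cc⁻¹) = pt w := by
    have := cc_ne
    field_simp
  rw [zero_add, hcc]
  have hx1 : (px w - 1) ^ 2 < 1 := by nlinarith [sq_nonneg (pt w), sq_nonneg (py w)]
  have hx2 : 0 < px w := by nlinarith
  have hx3 : px w < 2 := by nlinarith
  have e : pt w ^ 2 + px w * (px w - 1) + py w ^ 2 +
      (-(px w * (px w - 1) - py w ^ 2) * ((5 - px w) / 4) - pt w * (pt w * px w) / 4) =
      pt w ^ 2 * (1 - px w / 4) + px w * (px w - 1) ^ 2 / 4 + py w ^ 2 * ((9 - px w) / 4) := by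
    ring
  rw [e]
  have b1 : 0 ≤ pt w ^ 2 * (1 - px w / 4) := mul_nonneg (sq_nonneg _) (by linarith)
  have b2 : 0 ≤ px w * (px w - 1) ^ 2 / 4 := by positivity
  have b3 : 0 ≤ py w ^ 2 * ((9 - px w) / 4) := mul_nonneg (sq_nonneg _) (by linarith)
  by_contra hneg
  push Not at hneg
  have c1 : pt w ^ 2 * (1 - px w / 4) = 0 := by linarith
  have c2 : px w * (px w - 1) ^ 2 / 4 = 0 := by linarith
  have c3 : py w ^ 2 * ((9 - px w) / 4) = 0 := by linarith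
  have d1 : pt w ^ 2 = 0 := (mul_eq_zero.1 c1).resolve_right (by linarith)
  have d3 : py w ^ 2 = 0 := (mul_eq_zero.1 c3).resolve_right (by
    have : 0 < (9 - px w) / 4 := by linarith
    exact this.ne')
  have d2 : (px w - 1) ^ 2 = 0 := by
    have : px w * (px w - 1) ^ 2 = 0 := by linarith
    exact (mul_eq_zero.1 this).resolve_left hx2.ne'
  rw [d1, d2, d3] at hH
  linarith

theorem contactType {h : ℝ} (h0 : 0 < h) (h1 : h < 1 / 2) : IsContactType Ham h := by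
  refine ⟨fun ξ => canForm ξ + dForm (IC P) ff ξ,
    smoothForm_canForm.add (smoothForm_dForm smooth_ff), ?_, ?_⟩
  · intro ξ _ u v _ _
    have h2 := extDer_add (smoothForm_canForm (F := P) (L := MM)) (smoothForm_dForm smooth_ff) ξ u v
    have h3 := extDer_dForm smooth_ff ξ u v
    rw [h3, add_zero] at h2
    exact h2
  · intro ξ hξ
    obtain ⟨w, rfl⟩ := Phi_surj ξ
    exact ⟨exists_ham w, fun X hX => lam_pos h0 h1 hξ hX⟩

end Pool.Agent.U880.CT
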