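import Mathlib
import Pool.Agent.U880.CT.Calc

/-!
# Convexity, superlinearity, `e₀ = 0` and `c_u = 1/2`
-/

open scoped Topology ContDiff Manifold Matrix
open Set Bundle Pool.Agent.Helper186 Pool.Agent.W630 Pool.Agent.U880.CT.Old

noncomputable section

namespace Pool.Agent.U880.CT

/-! ### The lift and the critical value -/

lemma inverse_dq (v : P) :
    ContinuousLinearMap.inverse (dq GG v) = ds GG v := by
  have h : (dq GG v) = ((dqe GG v : P ≃L[ℝ] P) : P →L[ℝ] P) := by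
    ext1 u; rfl
  rw [h, ContinuousLinearMap.inverse_equiv]
  rfl

lemma lift_eq (v : P) (p : P →L[ℝ] ℝ) :
    liftHamiltonian (qm GG : P → MM) Ham (⟨v, p⟩ : Cotangent P P) =
      ((p et) ^ 2 + (p (Zx v) - 1) ^ 2 + (p (Zy v)) ^ 2) / 2 := by
  have h1 : liftHamiltonian (qm GG : P → MM) Ham (⟨v, p⟩ : Cotangent P P) = Ham (Phi (v, p)) := by
    exact congrArg (fun L : P →L[ℝ] P => Ham ⟨qm GG v, (show P →L[ℝ] ℝ from p.comp L)⟩)
      (inverse_dq v)
  rw [h1]
  simp only [Ham, mom_t, mom_x, mom_y]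
  rfl

lemma low {u : P → ℝ} (hu : Differentiable ℝ u) (p q : P) (c : ℝ)
    (h : ∀ τ : ℝ, c ≤ fderiv ℝ u (p + τ • q) q) {τ : ℝ} (hτ : 0 ≤ τ) :
    c * τ ≤ u (p + τ • q) - u p := by
  have h1 : ∀ s : ℝ, HasDerivAt (fun s : ℝ => u (p + s • q) - c * s)
      (fderiv ℝ u (p + s • q) q - c) s := by
    intro s
    have h2 : HasDerivAt (fun s : ℝ => p + s • q) q s := by
      simpa using ((hasDerivAt_id s).smul_const q).const_add p
    have h3 := (hu (p + s • q)).hasFDerivAt.comp_hasDerivAt s h2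
    have h4 : HasDerivAt (fun s : ℝ => c * s) c s := by simpa using (hasDerivAt_id s).const_mul c
    exact h3.sub h4
  have h2 : Monotone (fun s : ℝ => u (p + s • q) - c * s) := by
    apply monotone_of_deriv_nonneg
    · intro s; exact (h1 s).differentiableAt
    · intro s; rw [(h1 s).deriv]; linarith [h s]
  have h3 := h2 hτ
  simp only [zero_smul, add_zero, mul_zero, sub_zero] at h3
  linarith

lemma upp {u : P → ℝ} (hu : Differentiable ℝ u) (p q : P) (c : ℝ)
    (h : ∀ τ : ℝ, fderiv ℝ u (p + τ • q) q ≤ c) {τ : ℝ} (hτ : 0 ≤ τ) :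
    u (p + τ • q) - u p ≤ c * τ := by
  have h1 := low (u := fun x => -u x) hu.neg p q (-c) (by
    intro τ
    have : fderiv ℝ (fun x => -u x) (p + τ • q) = -fderiv ℝ u (p + τ • q) := fderiv_fun_neg
    rw [this, ContinuousLinearMap.neg_apply]
    linarith [h τ]) hτ
  linarith

lemma no_subsolution {u : P → ℝ} (hu : Differentiable ℝ u) {k : ℝ} (hk : k < 1 / 2)
    (h : ∀ v : P, ((fderiv ℝ u v et) ^ 2 + (fderiv ℝ u v (Zx v) - 1) ^ 2 +
      (fderiv ℝ u v (Zy v)) ^ 2) / 2 ≤ k) : False := by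
  have hk0 : 0 ≤ k := by
    have := h 0
    have h2 : 0 ≤ ((fderiv ℝ u 0 et) ^ 2 + (fderiv ℝ u 0 (Zx 0) - 1) ^ 2 +
      (fderiv ℝ u 0 (Zy 0)) ^ 2) / 2 := by positivity
    linarith
  obtain ⟨r, hr0, hr1, hr2⟩ : ∃ r : ℝ, 0 ≤ r ∧ r < 1 ∧ 2 * k ≤ r ^ 2 := by
    refine ⟨√(2 * k), Real.sqrt_nonneg _, ?_, ?_⟩
    · rw [Real.sqrt_lt' one_pos]; linarith
    · rw [Real.sq_sqrt (by linarith)]
  have hT : ∀ v : P, -1 ≤ fderiv ℝ u v et ∧ fderiv ℝ u v et ≤ 1 := by
    intro v
    have h1 := h v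
    have h2 : (fderiv ℝ u v et) ^ 2 ≤ 1 ^ 2 := by
      nlinarith [sq_nonneg (fderiv ℝ u v (Zx v) - 1), sq_nonneg (fderiv ℝ u v (Zy v))]
    exact abs_le.1 (abs_le_of_sq_le_sq h2 zero_le_one)
  have hX : ∀ v : P, 1 - r ≤ fderiv ℝ u v (Zx v) ∧ fderiv ℝ u v (Zx v) ≤ 2 := by
    intro v
    have h1 := h v
    have h2 : (fderiv ℝ u v (Zx v) - 1) ^ 2 ≤ r ^ 2 := by
      nlinarith [sq_nonneg (fderiv ℝ u v et), sq_nonneg (fderiv ℝ u v (Zy v))]
    have h3 := abs_le.1 (abs_le_of_sq_le_sq h2 hr0)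
    constructor <;> linarith [h3.1, h3.2]
  set δ := 1 - r with hδ
  have hδ0 : 0 < δ := by rw [hδ]; linarith
  have hz : ∀ t a : ℝ, cc * zL (t • et + a • ex) = t := by
    intro t a
    simp only [map_add, map_smul, zL_et, zL_ex, smul_eq_mul, mul_zero, add_zero]
    have := cc_ne
    field_simp
  have hex : ∀ v : P, fderiv ℝ u v ex = Real.exp (-(cc * zL v)) * fderiv ℝ u v (Zx v) := by
    intro v
    rw [Zx, map_smul, smul_eq_mul, ← mul_assoc, ← Real.exp_add]
    simp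
  -- the time
  obtain ⟨s, hs0, hs⟩ : ∃ s : ℝ, 0 < s ∧ Real.exp (-s) * 2 ≤ δ / 2 := by
    refine ⟨max 1 (-Real.log (δ / 4)), lt_of_lt_of_le one_pos (le_max_left _ _), ?_⟩
    have h1 : Real.exp (-max 1 (-Real.log (δ / 4))) ≤ δ / 4 := by
      rw [← Real.le_log_iff_exp_le (by positivity)]
      have := le_max_right 1 (-Real.log (δ / 4))
      linarith
    linarith
  set l := 4 * s / δ + 1 with hl
  have hl0 : 0 ≤ l := by positivity
  have e1 : δ * l ≤ u (0 + l • ex) - u 0 := by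
    refine low hu 0 ex δ ?_ hl0
    intro τ
    rw [hex]
    have : cc * zL (0 + τ • ex) = 0 := by simpa using hz 0 τ
    rw [this, neg_zero, Real.exp_zero, one_mul]
    exact (hX _).1
  have e2 : u (s • et + l • ex) - u (s • et) ≤ δ / 2 * l := by
    refine upp hu (s • et) ex (δ / 2) ?_ hl0
    intro τ
    rw [hex, hz]
    refine le_trans ?_ hs
    exact mul_le_mul_of_nonneg_left (hX _).2 (Real.exp_nonneg _)
  have e3 : -1 * s ≤ u (l • ex + s • et) - u (l • ex) :=
    low hu (l • ex) et (-1) (fun τ => (hT _).1) hs0.le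
  have e4 : u (0 + s • et) - u 0 ≤ 1 * s :=
    upp hu 0 et 1 (fun τ => (hT _).2) hs0.le
  rw [zero_add] at e1 e4
  rw [add_comm] at e3
  have e5 : δ / 2 * l = 2 * s + δ / 2 := by
    rw [hl]; field_simp; ring
  have e6 : δ * l = 2 * (δ / 2 * l) := by ring
  rw [e6] at e1
  rw [e5] at e1 e2
  linarith

theorem criticalValue :
    IsGLB (criticalLevels (liftHamiltonian (qm GG : P → MM) Ham)) (1 / 2) := by
  constructor
  · rintro k ⟨u, hu, h⟩
    by_contra hk
    push Not at hk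
    have hd : Differentiable ℝ u := hu.contDiff.differentiable (by simp)
    refine no_subsolution hd hk fun v => ?_
    have h1 := h v
    have h2 : mfderiv 𝓘(ℝ, P) 𝓘(ℝ, ℝ) u v = fderiv ℝ u v := mfderiv_eq_fderiv
    rw [h2] at h1
    exact (lift_eq v (fderiv ℝ u v)).symm.le.trans h1
  · intro b hb
    apply hb
    refine ⟨fun _ => 0, contMDiff_const, fun v => ?_⟩
    have h2 : mfderiv 𝓘(ℝ, P) 𝓘(ℝ, ℝ) (fun _ : P => (0:ℝ)) v = (0 : P →L[ℝ] ℝ) := mfderiv_const
    rw [h2]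
    refine (lift_eq v 0).le.trans ?_
    norm_num

/-! ### `e₀ = 0` -/

lemma Ham_nonneg (ξ : Cotangent P MM) : 0 ≤ Ham ξ := by
  unfold Ham; positivity

theorem minLevel : IsLeast (projectingLevels (M := MM) Ham) 0 := by
  constructor
  · intro x
    obtain ⟨v, rfl⟩ := qm_surj x
    let p : P →L[ℝ] ℝ := Real.exp (-(cc * zL v)) • xi
    refine ⟨(Phi (v, p)).2, ?_⟩
    show Ham (Phi (v, p)) = 0
    have h1 : p et = 0 := by simp [p, xi_et]
    have h2 : p (Zx v) = 1 := by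
      simp only [p, Zx, ContinuousLinearMap.smul_apply, map_smul, xi_ex, smul_eq_mul, mul_one]
      rw [← Real.exp_add]; simp
    have h3 : p (Zy v) = 0 := by simp [p, Zy, xi_ey]
    have h1' : pt (v, p) = 0 := h1
    have h2' : px (v, p) = 1 := h2
    have h3' : py (v, p) = 0 := h3
    simp only [Ham, mom_t, mom_x, mom_y, h1', h2', h3']
    norm_num
  · intro h hh
    obtain ⟨p, hp⟩ := hh (qm GG 0)
    rw [← hp]
    exact Ham_nonneg _

/-! ### Convexity -/

lemma frame_zero {x : MM} {w : TangentSpace 𝓘(ℝ, P) x →L[ℝ] ℝ} (h1 : w (descV GG Zt x) = 0)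
    (h2 : w (descV GG Zx x) = 0) (h3 : w (descV GG Zy x) = 0) : w = 0 := by
  obtain ⟨v, rfl⟩ := qm_surj x
  rw [descV_qm Zt_inv] at h1
  rw [descV_qm Zx_inv] at h2
  rw [descV_qm Zy_inv] at h3
  have key : ∀ W : P →L[ℝ] ℝ, W (dq GG v (Zt v)) = 0 → W (dq GG v (Zx v)) = 0 →
      W (dq GG v (Zy v)) = 0 → ∀ u, W u = 0 := by
    intro W a1 a2 a3 u
    obtain ⟨u', rfl⟩ := dq_surjective (G := GG) v u
    rw [expand u']
    have b1 : W (dq GG v et) = 0 := a1
    have b2 : W (dq GG v ex) = 0 := by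
      unfold Zx at a2
      rw [map_smul, map_smul, smul_eq_mul] at a2
      exact (mul_eq_zero.1 a2).resolve_left (Real.exp_ne_zero _)
    have b3 : W (dq GG v ey) = 0 := by
      unfold Zy at a3
      rw [map_smul, map_smul, smul_eq_mul] at a3
      exact (mul_eq_zero.1 a3).resolve_left (Real.exp_ne_zero _)
    simp only [map_add, map_smul, b1, b2, b3, smul_zero, add_zero]
  exact ContinuousLinearMap.ext fun u => key w h1 h2 h3 u

lemma iteratedDeriv_quad (a b c : ℝ) :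
    iteratedDeriv 2 (fun s : ℝ => a + b * s + c * s ^ 2) 0 = 2 * c := by
  rw [iteratedDeriv_succ, iteratedDeriv_one]
  have h1 : deriv (fun s : ℝ => a + b * s + c * s ^ 2) = fun s => b + c * (2 * s) := by
    funext s
    have h2 : HasDerivAt (fun s : ℝ => a + b * s + c * s ^ 2) (b + c * (2 * s)) s := by
      have e1 : HasDerivAt (fun s : ℝ => a + b * s) b s := by
        simpa using ((hasDerivAt_id s).const_mul b).const_add a
      have e2 : HasDerivAt (fun s : ℝ => c * s ^ 2) (c * (2 * s)) s := by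
        simpa using (hasDerivAt_pow 2 s).const_mul c
      exact e1.add e2
    exact h2.deriv
  rw [h1]
  have h3 : HasDerivAt (fun s : ℝ => b + c * (2 * s)) (c * 2) 0 := by
    simpa using (((hasDerivAt_id (0:ℝ)).const_mul 2).const_mul c).const_add b
  rw [h3.deriv]; ring

lemma convex_Ham (x : MM) (p w : TangentSpace 𝓘(ℝ, P) x →L[ℝ] ℝ) (hw : w ≠ 0) :
    0 < iteratedDeriv 2 (fun s : ℝ => Ham ⟨x, p + s • w⟩) 0 := by
  set a := p (descV GG Zt x) with ha
  set b := p (descV GG Zx x) with hb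
  set c := p (descV GG Zy x) with hc
  set a' := w (descV GG Zt x) with ha'
  set b' := w (descV GG Zx x) with hb'
  set c' := w (descV GG Zy x) with hc'
  have h1 : (fun s : ℝ => Ham ⟨x, p + s • w⟩) = fun s =>
      (a ^ 2 + (b - 1) ^ 2 + c ^ 2) / 2 + (a * a' + (b - 1) * b' + c * c') * s +
        ((a' ^ 2 + b' ^ 2 + c' ^ 2) / 2) * s ^ 2 := by
    funext s
    show (((p + s • w) (descV GG Zt x)) ^ 2 + ((p + s • w) (descV GG Zx x) - 1) ^ 2 +
      ((p + s • w) (descV GG Zy x)) ^ 2) / 2 = _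
    have e : ∀ z : TangentSpace 𝓘(ℝ, P) x, (p + s • w) z = p z + s * w z := fun z => rfl
    rw [e, e, e, ← ha, ← hb, ← hc, ← ha', ← hb', ← hc']
    ring
  rw [h1, iteratedDeriv_quad]
  have h2 : a' ^ 2 + b' ^ 2 + c' ^ 2 ≠ 0 := by
    intro h0
    have s1 := sq_nonneg a'
    have s2 := sq_nonneg b'
    have s3 := sq_nonneg c'
    exact hw (frame_zero (pow_eq_zero_iff two_ne_zero |>.1 (by linarith))
      (pow_eq_zero_iff two_ne_zero |>.1 (by linarith))
      (pow_eq_zero_iff two_ne_zero |>.1 (by linarith)))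
  have h3 : 0 < a' ^ 2 + b' ^ 2 + c' ^ 2 := lt_of_le_of_ne (by positivity) (Ne.symm h2)
  linarith

/-- The metric on the cotangent spaces. -/
def metr (x : MM) : (TangentSpace 𝓘(ℝ, P) x →L[ℝ] ℝ) →ₗ[ℝ]
      (TangentSpace 𝓘(ℝ, P) x →L[ℝ] ℝ) →ₗ[ℝ] ℝ :=
  LinearMap.mk₂ ℝ (fun p q => p (descV GG Zt x) * q (descV GG Zt x) +
    p (descV GG Zx x) * q (descV GG Zx x) + p (descV GG Zy x) * q (descV GG Zy x))
    (fun p p' q => by simp only [ContinuousLinearMap.add_apply]; ring)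
    (fun c p q => by simp only [ContinuousLinearMap.smul_apply, smul_eq_mul]; ring)
    (fun p q q' => by simp only [ContinuousLinearMap.add_apply]; ring)
    (fun c p q => by simp only [ContinuousLinearMap.smul_apply, smul_eq_mul]; ring)

lemma metr_apply (x : MM) (p q : TangentSpace 𝓘(ℝ, P) x →L[ℝ] ℝ) :
    metr x p q = p (descV GG Zt x) * q (descV GG Zt x) +
    p (descV GG Zx x) * q (descV GG Zx x) + p (descV GG Zy x) * q (descV GG Zy x) := rfl

theorem convexSuperlinear : IsConvexSuperlinear Ham where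
  contMDiff := smooth_Ham.of_le (by norm_cast)
  convex := convex_Ham
  superlinear := by
    refine ⟨metr, ?_, ?_, ?_, ?_⟩
    · intro x p q
      rw [metr_apply, metr_apply]; ring
    · intro x p hp
      rw [metr_apply]
      have s1 := mul_self_nonneg (p (descV GG Zt x))
      have s2 := mul_self_nonneg (p (descV GG Zx x))
      have s3 := mul_self_nonneg (p (descV GG Zy x))
      refine lt_of_le_of_ne (by linarith) fun h0 => hp ?_
      exact frame_zero (mul_self_eq_zero.1 (by linarith)) (mul_self_eq_zero.1 (by linarith))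
        (mul_self_eq_zero.1 (by linarith))
    · exact smooth_poly (g := fun q => q.1 * q.1 + q.2.1 * q.2.1 + q.2.2 * q.2.2) (by fun_prop)
    · intro C
      refine ⟨2 * |C| + 2, fun ξ hξ => ?_⟩
      have hg : metr ξ.1 ξ.2 ξ.2 = mom Zt ξ ^ 2 + mom Zx ξ ^ 2 + mom Zy ξ ^ 2 := by
        rw [metr_apply]
        show mom Zt ξ * mom Zt ξ + mom Zx ξ * mom Zx ξ + mom Zy ξ * mom Zy ξ = _
        ring
      rw [hg] at hξ ⊢
      set r := √(mom Zt ξ ^ 2 + mom Zx ξ ^ 2 + mom Zy ξ ^ 2) with hr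
      have hr0 : 0 ≤ r := Real.sqrt_nonneg _
      have hr2 : r ^ 2 = mom Zt ξ ^ 2 + mom Zx ξ ^ 2 + mom Zy ξ ^ 2 :=
        Real.sq_sqrt (by positivity)
      have hx : mom Zx ξ ≤ r := by
        apply Real.le_sqrt_of_sq_le
        nlinarith [sq_nonneg (mom Zt ξ), sq_nonneg (mom Zy ξ)]
      have hC : C ≤ |C| := le_abs_self C
      have hH : Ham ξ = (r ^ 2 - 2 * mom Zx ξ + 1) / 2 := by
        rw [hr2]; unfold Ham; ring
      rw [hH]
      have h1 : C * r ≤ |C| * r := mul_le_mul_of_nonneg_right hC hr0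
      have h2 : (2 * |C| + 2) * r ≤ r * r := mul_le_mul_of_nonneg_right hξ hr0
      nlinarith

/-! ### The manifold is not the 2-torus -/

theorem no_diffeo :
    IsEmpty (Diffeomorph 𝓘(ℝ, P) ((𝓡 1).prod (𝓡 1)) MM (Circle × Circle) ∞) := by
  refine ⟨fun Φ => ?_⟩
  have e := Φ.mfderivToContinuousLinearEquiv (by simp) (qm GG (0 : P))
  have h := e.toLinearEquiv.finrank_eq
  have h1 : Module.finrank ℝ (TangentSpace 𝓘(ℝ, P) (qm GG (0 : P))) = 3 := by
    show Module.finrank ℝ P = 3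
    simp
  have h2 : Module.finrank ℝ (TangentSpace ((𝓡 1).prod (𝓡 1)) (Φ (qm GG (0 : P)))) = 2 := by
    show Module.finrank ℝ (EuclideanSpace ℝ (Fin 1) × EuclideanSpace ℝ (Fin 1)) = 2
    simp
  rw [h1, h2] at h
  omega

end Pool.Agent.U880.CT
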