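import Mathlib
import Pool.Agent.U880.CT.Defs
import Pool.Agent.U880.CT.Levels

/-!
# The results in terms of the official definitions
-/

open scoped Topology ContDiff Manifold
open Set Pool.Agent.Helper186 Pool.Agent.W630

noncomputable section

namespace Pool.Agent.U880.CT

/-- The Hamiltonian. -/
def HamT : TStar (Fin 3 → ℝ) MM → ℝ := Ham

theorem contactTypeT {h : ℝ} (h0 : 0 < h) (h1 : h < 1 / 2) : IsContactType HamT h := by
  obtain ⟨lam, a, b, c⟩ := contactType h0 h1
  exact ⟨lam, a, b, c⟩

theorem minLevelT : IsLeast (projectingLevels (M := MM) HamT) 0 := minLevel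

theorem criticalValueT :
    IsGLB (criticalLevels (liftHamiltonian (qm GG : (Fin 3 → ℝ) → MM) HamT)) (1 / 2) :=
  criticalValue

theorem convexSuperlinearT : IsConvexSuperlinear HamT := by
  obtain ⟨a, b, g, c, d, e, f⟩ := convexSuperlinear
  refine ⟨a, b, g, c, d, e, ?_⟩
  intro C
  obtain ⟨K, hK⟩ := f C
  exact ⟨K, fun x p => hK ⟨x, p⟩⟩

end Pool.Agent.U880.CT
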